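import Pool.Agent.H815.QC.Stm

/-!
# Project QC (MP_c91b70_al): R6, adjacent vertices
-/

set_option autoImplicit false

namespace Pool.Agent.H268.QC

open Pool.Agent.Y110.FJ Pool.Agent.T2H65.GP Pool.Agent.H815.QC

open Classical in
/-- the exponent of a vertex -/
noncomputable def ex {V : Type} (Λ : SimpleGraph V) (w : V) : P2 Λ →* Multiplicative ℤ :=
  glift (fun v => if v = w then MonoidHom.id (Multiplicative ℤ) else 1) (fun _ _ _ _ _ => mul_comm _ _)

theorem ex_self {V : Type} (Λ : SimpleGraph V) (w : V) (m : ℤ) : ex Λ w (gp Λ w m) = Multiplicative.ofAdd m := by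
  rw [ex, gp, glift_of, if_pos rfl]
  rfl

theorem ex_ne {V : Type} (Λ : SimpleGraph V) {v w : V} (h : v ≠ w) (m : ℤ) : ex Λ w (gp Λ v m) = 1 := by
  rw [ex, gp, glift_of, if_neg h]
  rfl

theorem R6_proof (hR4 : S_R4) : Pool.Agent.H815.QC.S_R6 := by
  intro V _ Λ N _ β hβ b S s t hst hs ht
  obtain ⟨m, hm, a, ha⟩ := hR4 V Λ N β hβ b s
  obtain ⟨k, hk, c, hc⟩ := hR4 V Λ N β hβ b t
  have hcomm : gp Λ s m * gp Λ t k = gp Λ t k * gp Λ s m := of_comm hst _ _
  refine ⟨a, ?_, c, ?_, ?_, ?_⟩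
  · refine mem_pb.2 ?_
    rw [ha]
    have : b⁻¹ * (b * gp Λ s m * b⁻¹) * b = gp Λ s m := by group
    rw [this]
    exact vg_le_std Λ (B2 V) hs ⟨_, rfl⟩
  · refine mem_pb.2 ?_
    rw [hc]
    have : b⁻¹ * (b * gp Λ t k * b⁻¹) * b = gp Λ t k := by group
    rw [this]
    exact vg_le_std Λ (B2 V) ht ⟨_, rfl⟩
  · apply hβ.1
    rw [map_mul, map_mul, ha, hc]
    have h1 : b * gp Λ s m * b⁻¹ * (b * gp Λ t k * b⁻¹) = b * (gp Λ s m * gp Λ t k) * b⁻¹ := by group
    have h2 : b * gp Λ t k * b⁻¹ * (b * gp Λ s m * b⁻¹) = b * (gp Λ t k * gp Λ s m) * b⁻¹ := by group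
    rw [h1, h2, hcomm]
  · intro i j hij
    have h0 : β a ^ i * β c ^ j = 1 := by
      rw [← map_zpow, ← map_zpow, ← map_mul, hij, map_one]
    have key : ∀ w : V, Multiplicative.toAdd (ex Λ w (β a)) * i + Multiplicative.toAdd (ex Λ w (β c)) * j = 0 := by
      intro w
      have h1 := congrArg (fun z => Multiplicative.toAdd (ex Λ w z)) h0
      simp only [map_mul, map_zpow, map_one, toAdd_mul, toAdd_zpow, toAdd_one, smul_eq_mul] at h1
      linarith
    have hne : t ≠ s := hst.ne'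
    have conj : ∀ (w : V) (x : P2 Λ), ex Λ w (b * x * b⁻¹) = ex Λ w x := by
      intro w x
      rw [map_mul, map_mul, map_inv, mul_comm (ex Λ w b), mul_assoc, mul_inv_cancel, mul_one]
    constructor
    · have h1 := key s
      rw [ha, hc, conj, conj, ex_self, ex_ne Λ hne, toAdd_ofAdd, toAdd_one] at h1
      have h2 : m * i = 0 := by linarith
      rcases mul_eq_zero.1 h2 with h | h
      · omega
      · exact h
    · have h1 := key t
      rw [ha, hc, conj, conj, ex_self, ex_ne Λ hst.ne, toAdd_ofAdd, toAdd_one] at h1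
      have h2 : k * j = 0 := by linarith
      rcases mul_eq_zero.1 h2 with h | h
      · omega
      · exact h

end Pool.Agent.H268.QC
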